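import Mathlib
import Pool.Agent.Helper3.ETF.Frame

/-!
# E-T (MP_12a1af_nt), project T*: final numbers (H5)
-/

open Finset Filter Topology

namespace Pool.Agent.Helper82.ETN

open Pool.Agent.ETP

/-- numerical inputs of the last step -/
structure NumHyp (C K1 : ℕ) (d : ℝ) (g mm : ℕ → ℕ) (ε : ℕ → ℝ) (near : ℕ → ℕ → ℕ)
    (wn a0 : ℕ → ℕ) : Prop where
  C1 : 1 ≤ C
  K1pos : 1 ≤ K1
  gpos : ∀ K, K1 ≤ K → 1 ≤ g K
  n1 : ∃ c : ℝ, 0 < c ∧ ∀ K : ℕ, K1 ≤ K → (K:ℝ) ^ (1/3 - d) ≤ c * g K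
  n2 : ∃ c : ℝ, 0 < c ∧ ∀ K : ℕ, K1 ≤ K → (g K : ℝ) ≤ c * (K:ℝ) ^ (1/3 + d)
  n3 : ∃ c : ℝ, 0 < c ∧ ∀ K : ℕ, K1 ≤ K → (mm K : ℝ) ≤ c * (K:ℝ) ^ 2
  n4 : ∀ K, K1 ≤ K → 0 ≤ ε K ∧ ε K ≤ (1/2) ^ (g K / (8 * C))
  n5 : ∀ K, K1 ≤ K → 7 * K ≤ 8 * a0 K ∧ a0 K ≤ K
  n6 : ∃ c : ℝ, 0 < c ∧ ∀ K K' : ℕ, K1 ≤ K' → K' ≤ K → K < K' + g K →
    (near K K' : ℝ) ≤ c * (K:ℝ) ^ (1/3 + d) * (1 + (K:ℝ) ^ (1/3 + d) / ((K - K' : ℕ) + 1 : ℝ))
  n7 : ∃ c : ℝ, 0 < c ∧ ∀ K : ℕ, K1 ≤ K → (wn K : ℝ) ≤ c * (K:ℝ) ^ d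

/-- number of admissible beginnings -/
def sN (C : ℕ) (g : ℕ → ℕ) (K : ℕ) : ℕ := 32 * C * K / g K + 1

lemma sN_ge (C : ℕ) (g : ℕ → ℕ) (K : ℕ) (hg : 1 ≤ g K) :
    (32 * C * K : ℝ) / g K ≤ sN C g K := by
  unfold sN
  have h1 : (0:ℝ) < g K := by exact_mod_cast hg
  rw [div_le_iff₀ h1]
  have h2 : 32 * C * K < (32 * C * K / g K + 1) * g K := by
    have := Nat.lt_div_mul_add (a := 32 * C * K) (b := g K) (by omega)
    nlinarith [Nat.div_add_mod (32 * C * K) (g K), Nat.mod_lt (32 * C * K) (show 0 < g K by omega)]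
  have h3 : ((32 * C * K : ℕ) : ℝ) < (((32 * C * K / g K + 1) * g K : ℕ) : ℝ) := by
    exact_mod_cast h2
  push_cast at h3 ⊢
  linarith

lemma sN_le (C : ℕ) (g : ℕ → ℕ) (K : ℕ) (hg : 1 ≤ g K) :
    (sN C g K : ℝ) ≤ (32 * C * K : ℝ) / g K + 1 := by
  unfold sN
  have h1 : (0:ℝ) < g K := by exact_mod_cast hg
  push_cast
  have h2 : (((32 * C * K / g K : ℕ)) : ℝ) ≤ ((32 * C * K : ℕ) : ℝ) / (g K : ℝ) := Nat.cast_div_le
  push_cast at h2
  linarith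

/-- a polynomial is eventually below an exponential of a power -/
lemma ev_pow_le_two_pow (a b c e : ℝ) (hb : 0 < b) (he : 0 < e) :
    ∀ᶠ K : ℕ in atTop, a * (K:ℝ) ^ c ≤ (2:ℝ) ^ (b * (K:ℝ) ^ e) := by
  have h1 : (fun x : ℝ => x ^ (c / e)) =o[atTop] fun x => Real.exp ((b * Real.log 2) * x) :=
    isLittleO_rpow_exp_pos_mul_atTop _ (mul_pos hb (Real.log_pos one_lt_two))
  have h2 : Tendsto (fun K : ℕ => (K:ℝ) ^ e) atTop atTop :=
    (tendsto_rpow_atTop he).comp tendsto_natCast_atTop_atTop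
  have h3 := h1.comp_tendsto h2
  have h4 := h3.bound (show (0:ℝ) < 1 / (|a| + 1) by positivity)
  filter_upwards [h4, eventually_ge_atTop 1] with K hK hK1
  have hK0 : (0:ℝ) < K := by exact_mod_cast hK1
  simp only [Function.comp] at hK
  rw [← Real.rpow_mul hK0.le, mul_div_cancel₀ _ he.ne', Real.norm_of_nonneg (by positivity),
    Real.norm_of_nonneg (by positivity)] at hK
  rw [Real.rpow_def_of_pos two_pos]
  have h5 : Real.exp (Real.log 2 * (b * (K:ℝ) ^ e)) = Real.exp (b * Real.log 2 * (K:ℝ) ^ e) := by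
    congr 1; ring
  rw [h5]
  have h6 : 0 < |a| + 1 := by positivity
  rw [div_mul_eq_mul_div, one_mul, le_div_iff₀ h6] at hK
  calc a * (K:ℝ) ^ c ≤ (|a| + 1) * (K:ℝ) ^ c := by
        refine mul_le_mul_of_nonneg_right ?_ (by positivity)
        linarith [le_abs_self a]
    _ = (K:ℝ) ^ c * (|a| + 1) := by ring
    _ ≤ _ := hK

/-- powers of the logarithm are eventually below powers -/
lemma ev_log_pow_le (a c e : ℝ) (he : 0 < e) :
    ∀ᶠ K : ℕ in atTop, a * (1 + Real.log (K:ℝ)) ^ c ≤ (K:ℝ) ^ e := by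
  have h1 : (fun x : ℝ => x ^ c) =o[atTop] fun x => Real.exp (e * x) :=
    isLittleO_rpow_exp_pos_mul_atTop _ he
  have h2 : Tendsto (fun K : ℕ => 1 + Real.log (K:ℝ)) atTop atTop :=
    tendsto_atTop_add_const_left _ _ (Real.tendsto_log_atTop.comp tendsto_natCast_atTop_atTop)
  have h3 := (h1.comp_tendsto h2).bound
    (show (0:ℝ) < 1 / ((|a| + 1) * Real.exp e) by positivity)
  filter_upwards [h3, eventually_ge_atTop 1] with K hK hK1
  have hK0 : (1:ℝ) ≤ K := by exact_mod_cast hK1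
  have hl : 0 ≤ Real.log (K:ℝ) := Real.log_nonneg hK0
  simp only [Function.comp] at hK
  rw [Real.norm_of_nonneg (by positivity), Real.norm_of_nonneg (by positivity)] at hK
  have h6 : 0 < (|a| + 1) * Real.exp e := by positivity
  rw [div_mul_eq_mul_div, one_mul, le_div_iff₀ h6, mul_add, Real.exp_add, mul_one] at hK
  have h7 : Real.exp (e * Real.log (K:ℝ)) = (K:ℝ) ^ e := by
    rw [Real.rpow_def_of_pos (by linarith), mul_comm]
  rw [h7] at hK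
  have h8 : (1 + Real.log (K:ℝ)) ^ c * (|a| + 1) ≤ (K:ℝ) ^ e := by
    have he2 : 0 < Real.exp e := Real.exp_pos e
    refine le_of_mul_le_mul_right ?_ he2
    calc (1 + Real.log (K:ℝ)) ^ c * (|a| + 1) * Real.exp e
        = (1 + Real.log (K:ℝ)) ^ c * ((|a| + 1) * Real.exp e) := by ring
      _ ≤ Real.exp e * (K:ℝ) ^ e := hK
      _ = (K:ℝ) ^ e * Real.exp e := by ring
  calc a * (1 + Real.log (K:ℝ)) ^ c ≤ (|a| + 1) * (1 + Real.log (K:ℝ)) ^ c := by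
        refine mul_le_mul_of_nonneg_right ?_ (by positivity)
        linarith [le_abs_self a]
    _ = (1 + Real.log (K:ℝ)) ^ c * (|a| + 1) := by ring
    _ ≤ _ := h8

lemma ev_const_le_rpow (a e : ℝ) (he : 0 < e) : ∀ᶠ K : ℕ in atTop, a ≤ (K:ℝ) ^ e :=
  ((tendsto_rpow_atTop he).comp tendsto_natCast_atTop_atTop).eventually_ge_atTop a

variable {C K1 : ℕ} {d : ℝ} {g mm : ℕ → ℕ} {ε : ℕ → ℝ} {near : ℕ → ℕ → ℕ} {wn a0 : ℕ → ℕ}

/-- the threshold tends to infinity -/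
lemma NumHyp.ev_g (H : NumHyp C K1 d g mm ε near wn a0) (hd : d < 1/3) (a : ℝ) :
    ∀ᶠ K : ℕ in atTop, a ≤ (g K : ℝ) := by
  obtain ⟨c, hc, h⟩ := H.n1
  filter_upwards [ev_const_le_rpow (a * c) (1/3 - d) (by linarith), eventually_ge_atTop K1] with K hK hK1
  have h1 := h K hK1
  have h2 : a * c ≤ (g K : ℝ) * c := by linarith
  exact le_of_mul_le_mul_right h2 hc

lemma NumHyp.failA_ev (H : NumHyp C K1 d g mm ε near wn a0) (hd : d < 1/3) :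
    ∀ᶠ K : ℕ in atTop, failA mm (sN C g) ε K ≤ (1/2) ^ (K+2) := by
  obtain ⟨c1, hc1, h1⟩ := H.n1
  obtain ⟨c3, hc3, h3⟩ := H.n3
  have hC : (1:ℝ) ≤ C := by exact_mod_cast H.C1
  have hC0 : (0:ℝ) < C := by linarith
  filter_upwards [H.ev_g hd (320 * C), eventually_ge_atTop K1, eventually_ge_atTop 8,
    ev_pow_le_two_pow (2 * (c3 ^ 2 * (67 * C) ^ 2)) (1 / (24 * C * c1)) 7 (1/3 - d)
      (by positivity) (by linarith)] with K hg hK1 hK8 hexp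
  have hgp := H.gpos K hK1
  have hg0 : (0:ℝ) < g K := by exact_mod_cast hgp
  have hK0 : (8:ℝ) ≤ K := by exact_mod_cast hK8
  have hs1 := sN_ge C g K hgp
  have hs2 := sN_le C g K hgp
  have hge1 : (1:ℝ) ≤ g K := by exact_mod_cast hgp
  refine failA_le (fun K => g K / (12 * C)) (H.n4 K hK1).1 ?_ ?_
  · -- (b)
    have hε := (H.n4 K hK1).2
    have hε0 := (H.n4 K hK1).1
    have hs3 : (2 * (sN C g K : ℝ) + 1) ≤ 67 * C * K := by
      have e1 : (32 * C * K : ℝ) / g K ≤ 32 * C * K := by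
        rw [div_le_iff₀ hg0]
        have : 0 ≤ (32 * C * K : ℝ) := by positivity
        nlinarith
      nlinarith
    have hpoly : (K : ℝ) * (mm K : ℝ) ^ 2 * (2 * (sN C g K : ℝ) + 1) ^ 2 ≤
        c3 ^ 2 * (67 * C) ^ 2 * (K:ℝ) ^ (7:ℝ) := by
      have e1 : (mm K : ℝ) ^ 2 ≤ (c3 * (K:ℝ) ^ 2) ^ 2 :=
        pow_le_pow_left₀ (by positivity) (h3 K hK1) 2
      have e2 : (2 * (sN C g K : ℝ) + 1) ^ 2 ≤ (67 * C * K) ^ 2 :=
        pow_le_pow_left₀ (by positivity) hs3 2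
      have e3 : (K:ℝ) ^ (7:ℝ) = (K:ℝ) ^ 7 := by
        rw [show (7:ℝ) = ((7:ℕ):ℝ) by norm_num, Real.rpow_natCast]
      rw [e3]
      calc (K : ℝ) * (mm K : ℝ) ^ 2 * (2 * (sN C g K : ℝ) + 1) ^ 2
          ≤ (K : ℝ) * (c3 * (K:ℝ) ^ 2) ^ 2 * (67 * C * K) ^ 2 := by gcongr
        _ = c3 ^ 2 * (67 * C) ^ 2 * (K:ℝ) ^ 7 := by ring
    have hgl : 1 / (24 * C * c1) * (K:ℝ) ^ (1/3 - d) ≤ (g K : ℝ) / (24 * C) := by
      have := h1 K hK1
      rw [div_mul_eq_mul_div, one_mul, div_le_div_iff₀ (by positivity) (by positivity)]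
      nlinarith
    have hexp2 : 2 * (c3 ^ 2 * (67 * C) ^ 2) * (K:ℝ) ^ (7:ℝ) ≤ (2:ℝ) ^ ((g K : ℝ) / (24 * C)) :=
      hexp.trans (Real.rpow_le_rpow_of_exponent_le (by norm_num) hgl)
    have hfl : (g K : ℝ) / (24 * C) + ((g K / (12 * C) : ℕ) : ℝ) ≤ ((g K / (8 * C) : ℕ) : ℝ) + 1 := by
      have f1 : ((g K / (12 * C) : ℕ) : ℝ) ≤ (g K : ℝ) / ((12 * C : ℕ) : ℝ) := Nat.cast_div_le
      have f2 : (g K : ℝ) / ((8 * C : ℕ) : ℝ) < ((g K / (8 * C) : ℕ) : ℝ) + 1 := by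
        have : (0:ℝ) < ((8 * C : ℕ) : ℝ) := by
          have := H.C1
          exact_mod_cast (by omega : 0 < 8 * C)
        rw [div_lt_iff₀ this]
        have h5 := Nat.lt_div_mul_add (a := g K) (b := 8 * C) (by have := H.C1; omega)
        have h6 : (g K : ℝ) < ((g K / (8 * C) * (8 * C) + 8 * C : ℕ) : ℝ) := by exact_mod_cast h5
        push_cast at h6 ⊢
        linarith
      push_cast at f1 f2
      have f3 : (g K : ℝ) / (24 * C) + (g K : ℝ) / (12 * C) = (g K : ℝ) / (8 * C) := by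
        field_simp
        norm_num
      linarith
    calc (K : ℝ) * (mm K : ℝ) ^ 2 * (2 * (sN C g K : ℝ) + 1) ^ 2 * ε K
        ≤ (c3 ^ 2 * (67 * C) ^ 2 * (K:ℝ) ^ (7:ℝ)) * (1/2) ^ (g K / (8 * C)) :=
          mul_le_mul hpoly hε hε0 (by positivity)
      _ ≤ ((2:ℝ) ^ ((g K : ℝ) / (24 * C)) / 2) * (1/2) ^ (g K / (8 * C)) := by
          refine mul_le_mul_of_nonneg_right ?_ (by positivity)
          linarith
      _ ≤ (1/2) ^ (g K / (12 * C)) := by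
          have g1 : ((1:ℝ)/2) ^ (g K / (8 * C)) = (2:ℝ) ^ (-(((g K / (8 * C) : ℕ)) : ℝ)) := by
            rw [Real.rpow_neg (by norm_num), Real.rpow_natCast, one_div, inv_pow]
          have g2 : ((1:ℝ)/2) ^ (g K / (12 * C)) = (2:ℝ) ^ (-(((g K / (12 * C) : ℕ)) : ℝ)) := by
            rw [Real.rpow_neg (by norm_num), Real.rpow_natCast, one_div, inv_pow]
          have g3 : (2:ℝ) ^ ((g K : ℝ) / (24 * C)) / 2 = (2:ℝ) ^ ((g K : ℝ) / (24 * C) - 1) := by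
            rw [Real.rpow_sub (by norm_num), Real.rpow_one]
          rw [g1, g2, g3, ← Real.rpow_add (by norm_num)]
          refine Real.rpow_le_rpow_of_exponent_le (by norm_num) ?_
          linarith
  · -- (a)
    have f1 : (g K : ℝ) / (12 * C) - 1 ≤ ((g K / (12 * C) : ℕ) : ℝ) := by
      have : (0:ℝ) < 12 * C := by linarith
      rw [sub_le_iff_le_add, div_le_iff₀ this]
      have h5 := Nat.lt_div_mul_add (a := g K) (b := 12 * C) (by have := H.C1; omega)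
      have h6 : (g K : ℝ) < ((g K / (12 * C) * (12 * C) + 12 * C : ℕ) : ℝ) := by exact_mod_cast h5
      push_cast at h6 ⊢
      linarith
    have f2 : (0:ℝ) ≤ (g K : ℝ) / (12 * C) - 1 := by
      rw [sub_nonneg, le_div_iff₀ (by positivity)]
      linarith
    have f3 : ((g K : ℝ) / (12 * C) - 1) * ((32 * C * K : ℝ) / g K) ≤
        ((g K / (12 * C) : ℕ) : ℝ) * (sN C g K : ℝ) :=
      mul_le_mul f1 hs1 (by positivity) (by positivity)
    have f4 : ((g K : ℝ) / (12 * C) - 1) * ((32 * C * K : ℝ) / g K) =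
        32 * K / 12 - 32 * C * K / g K := by
      field_simp
    have f5 : (32 * C * K : ℝ) / g K ≤ K / 10 := by
      rw [div_le_div_iff₀ hg0 (by norm_num)]
      nlinarith
    have f6 : ((2 * K + 4 : ℕ) : ℝ) ≤ ((g K / (12 * C) * sN C g K : ℕ) : ℝ) := by
      push_cast at f3 ⊢
      nlinarith
    exact_mod_cast f6

lemma NumHyp.failB_ev (H : NumHyp C K1 d g mm ε near wn a0) :
    ∀ᶠ K : ℕ in atTop, failB (a0 K) 8 K ≤ (1/2) ^ (K+2) := by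
  filter_upwards [eventually_ge_atTop K1,
    ev_pow_le_two_pow 16 (1/2) 8 1 (by norm_num) (by norm_num)] with K hK1 hexp
  refine failB_le (H.n5 K hK1).1 (H.n5 K hK1).2 ?_
  rw [show (8:ℝ) = ((8:ℕ):ℝ) by norm_num, Real.rpow_natCast, Real.rpow_one] at hexp
  refine hexp.trans (le_of_eq ?_)
  rw [Real.sqrt_eq_rpow, ← Real.rpow_natCast, ← Real.rpow_mul (by norm_num)]
  congr 1
  ring

lemma NumHyp.fail (H : NumHyp C K1 d g mm ε near wn a0) (hd : d < 1/3) :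
    ∃ K0 : ℕ, K1 ≤ K0 ∧ ∀ Kmax,
      ∑ K ∈ Icc K0 Kmax, (failA mm (sN C g) ε K + failB (a0 K) 8 K) < 1 := by
  obtain ⟨K0, h0⟩ := (((H.failA_ev hd).and H.failB_ev).and (eventually_ge_atTop K1)).exists_forall_of_atTop
  refine ⟨K0, (h0 K0 le_rfl).2, fun Kmax => ?_⟩
  refine lt_of_le_of_lt (Finset.sum_le_sum (fun K hK => ?_)) (sum_half_pow_lt K0 Kmax)
  rw [mem_Icc] at hK
  have h1 := (h0 K hK.1).1
  have h2 : ((1:ℝ)/2) ^ (K+1) = (1/2) ^ (K+2) + (1/2) ^ (K+2) := by ring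
  linarith [h1.1, h1.2]

end Pool.Agent.Helper82.ETN
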