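import Mathlib
import Pool.Agent.Helper82.ETN.Num

/-!
# E-T (MP_12a1af_nt), project T*: final numbers (H5), second part: the bound of the number of
representations
-/

open Finset Filter Topology

namespace Pool.Agent.Helper82.ETN

open Pool.Agent.ETP

lemma sum_inv_le (K0 K : ℕ) :
    ∑ K' ∈ Icc K0 K, (1:ℝ) / ((K - K' : ℕ) + 1 : ℝ) ≤ 1 + Real.log (K + 1) := by
  have h1 : ∑ K' ∈ Icc K0 K, (1:ℝ) / ((K - K' : ℕ) + 1 : ℝ) ≤
      ∑ K' ∈ range (K+1), (1:ℝ) / ((K - K' : ℕ) + 1 : ℝ) := by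
    refine Finset.sum_le_sum_of_subset_of_nonneg ?_ (fun _ _ _ => by positivity)
    intro K' hK'
    rw [mem_Icc] at hK'
    rw [mem_range]; omega
  have h2 : ∑ K' ∈ range (K+1), (1:ℝ) / ((K - K' : ℕ) + 1 : ℝ) =
      ∑ j ∈ range (K+1), (1:ℝ) / ((j:ℝ) + 1) := by
    have := Finset.sum_range_reflect (fun j => (1:ℝ) / ((j:ℝ) + 1)) (K+1)
    rw [← this]
    refine Finset.sum_congr rfl (fun j hj => ?_)
    rw [mem_range] at hj
    simp only [Nat.add_sub_cancel]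
  have h3 : ∑ j ∈ range (K+1), (1:ℝ) / ((j:ℝ) + 1) = ((harmonic (K+1) : ℚ) : ℝ) := by
    rw [harmonic]
    push_cast
    refine Finset.sum_congr rfl (fun j _ => ?_)
    rw [one_div]
  have h4 := harmonic_le_one_add_log (K+1)
  push_cast at h4
  linarith

variable {C K1 : ℕ} {d : ℝ} {g mm : ℕ → ℕ} {ε : ℕ → ℝ} {near : ℕ → ℕ → ℕ} {wn a0 : ℕ → ℕ}

/-- the bound of the near part -/
lemma NumHyp.near_sum (H : NumHyp C K1 d g mm ε near wn a0) (hd : 0 < d) :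
    ∃ c : ℝ, 0 < c ∧ ∀ K0 K : ℕ, K1 ≤ K0 → K1 ≤ K →
      ((∑ K' ∈ (Icc K0 K).filter (fun K' => K < K' + g K), near K K' : ℕ) : ℝ) ≤
        c * (K:ℝ) ^ (2/3 + 3 * d) := by
  obtain ⟨c2, hc2, h2⟩ := H.n2
  obtain ⟨c6, hc6, h6⟩ := H.n6
  obtain ⟨N, hN⟩ := (ev_log_pow_le 2 1 d hd).exists_forall_of_atTop
  -- 1 + log (K+1) ≤ c8 K^d for all K ≥ 1
  obtain ⟨c8, hc8, h8⟩ : ∃ c8 : ℝ, 0 < c8 ∧ ∀ K : ℕ, 1 ≤ K →
      1 + Real.log (K + 1) ≤ c8 * (K:ℝ) ^ d := by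
    refine ⟨2 + Real.log (N + 1), ?_, fun K hK => ?_⟩
    · have : 0 ≤ Real.log ((N:ℝ) + 1) := Real.log_nonneg (by linarith [Nat.cast_nonneg (α := ℝ) N])
      linarith
    · have hK0 : (1:ℝ) ≤ K := by exact_mod_cast hK
      have hKd : (1:ℝ) ≤ (K:ℝ) ^ d := Real.one_le_rpow hK0 hd.le
      have hlN : 0 ≤ Real.log ((N:ℝ) + 1) := Real.log_nonneg (by linarith [Nat.cast_nonneg (α := ℝ) N])
      rcases le_total N K with hNK | hNK
      · have e1 := hN K hNK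
        rw [Real.rpow_one] at e1
        have e2 : Real.log ((K:ℝ) + 1) ≤ 1 + Real.log K := by
          have : (K:ℝ) + 1 ≤ 2 * K := by linarith
          calc Real.log ((K:ℝ) + 1) ≤ Real.log (2 * K) := Real.log_le_log (by linarith) this
            _ = Real.log 2 + Real.log K := Real.log_mul (by norm_num) (by linarith)
            _ ≤ 1 + Real.log K := by
                have := Real.log_two_lt_d9
                linarith
        have e3 : 0 ≤ Real.log (K:ℝ) := Real.log_nonneg hK0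
        have e4 : 1 + Real.log ((K:ℝ) + 1) ≤ (K:ℝ) ^ d := by linarith
        have e5 : 0 ≤ (1 + Real.log ((N:ℝ) + 1)) * (K:ℝ) ^ d := by positivity
        nlinarith
      · have e1 : Real.log ((K:ℝ) + 1) ≤ Real.log ((N:ℝ) + 1) :=
          Real.log_le_log (by linarith) (by
            have : (K:ℝ) ≤ N := by exact_mod_cast hNK
            linarith)
        nlinarith
  refine ⟨c6 * (c2 + 1 + c8), by positivity, fun K0 K hK0 hK1 => ?_⟩
  have hK : 1 ≤ K := H.K1pos.trans hK1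
  have hKr : (1:ℝ) ≤ K := by exact_mod_cast hK
  have hKp : (0:ℝ) < K := by linarith
  have hgp := H.gpos K hK1
  set X : ℝ := (K:ℝ) ^ (1/3 + d) with hX
  have hX0 : 0 < X := by positivity
  have hX1 : 1 ≤ X := Real.one_le_rpow hKr (by linarith)
  push_cast
  have s1 : ∑ K' ∈ (Icc K0 K).filter (fun K' => K < K' + g K), (near K K' : ℝ) ≤
      ∑ K' ∈ (Icc K0 K).filter (fun K' => K < K' + g K),
        c6 * X * (1 + X / ((K - K' : ℕ) + 1 : ℝ)) := by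
    refine Finset.sum_le_sum (fun K' hK' => ?_)
    rw [mem_filter, mem_Icc] at hK'
    exact h6 K K' (hK0.trans hK'.1.1) hK'.1.2 hK'.2
  have s2 : ∑ K' ∈ (Icc K0 K).filter (fun K' => K < K' + g K),
        c6 * X * (1 + X / ((K - K' : ℕ) + 1 : ℝ)) =
      c6 * X * (((Icc K0 K).filter (fun K' => K < K' + g K)).card +
        X * ∑ K' ∈ (Icc K0 K).filter (fun K' => K < K' + g K), (1:ℝ) / ((K - K' : ℕ) + 1 : ℝ)) := by
    rw [← Finset.mul_sum, Finset.sum_add_distrib, Finset.mul_sum]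
    congr 2
    · simp
    · refine Finset.sum_congr rfl (fun K' _ => ?_)
      ring
  have s3 : (((Icc K0 K).filter (fun K' => K < K' + g K)).card : ℝ) ≤ g K := by
    have : ((Icc K0 K).filter (fun K' => K < K' + g K)) ⊆ Ioc (K - g K) K := by
      intro K' hK'
      rw [mem_filter, mem_Icc] at hK'
      rw [mem_Ioc]
      have := H.K1pos
      omega
    have h := Finset.card_le_card this
    rw [Nat.card_Ioc] at h
    have h' : ((Icc K0 K).filter (fun K' => K < K' + g K)).card ≤ g K := by omega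
    exact_mod_cast h'
  have s4 : ∑ K' ∈ (Icc K0 K).filter (fun K' => K < K' + g K), (1:ℝ) / ((K - K' : ℕ) + 1 : ℝ) ≤
      c8 * (K:ℝ) ^ d := by
    refine le_trans ?_ (h8 K hK)
    refine le_trans ?_ (sum_inv_le K0 K)
    exact Finset.sum_le_sum_of_subset_of_nonneg (Finset.filter_subset _ _) (fun _ _ _ => by positivity)
  have s5 : (1:ℝ) ≤ (K:ℝ) ^ d := Real.one_le_rpow hKr hd.le
  calc ∑ K' ∈ (Icc K0 K).filter (fun K' => K < K' + g K), (near K K' : ℝ)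
      ≤ c6 * X * (((Icc K0 K).filter (fun K' => K < K' + g K)).card +
        X * ∑ K' ∈ (Icc K0 K).filter (fun K' => K < K' + g K), (1:ℝ) / ((K - K' : ℕ) + 1 : ℝ)) :=
        s1.trans (le_of_eq s2)
    _ ≤ c6 * X * (c2 * X + X * (c8 * (K:ℝ) ^ d)) := by
        refine mul_le_mul_of_nonneg_left ?_ (by positivity)
        exact add_le_add (s3.trans (h2 K hK1)) (mul_le_mul_of_nonneg_left s4 hX0.le)
    _ = c6 * (c2 + c8 * (K:ℝ) ^ d) * (X * X) := by ring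
    _ ≤ c6 * ((c2 + 1 + c8) * (K:ℝ) ^ d) * (X * X) := by
        refine mul_le_mul_of_nonneg_right ?_ (by positivity)
        refine mul_le_mul_of_nonneg_left ?_ hc6.le
        nlinarith
    _ = c6 * (c2 + 1 + c8) * ((K:ℝ) ^ d * (X * X)) := by ring
    _ = c6 * (c2 + 1 + c8) * (K:ℝ) ^ (2/3 + 3 * d) := by
        rw [hX, ← Real.rpow_add hKp, ← Real.rpow_add hKp]
        congr 2
        ring

/-- the bound of the far part -/
lemma NumHyp.far_bd (H : NumHyp C K1 d g mm ε near wn a0) (hd : 0 < d) :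
    ∃ c : ℝ, 0 < c ∧ ∀ K : ℕ, K1 ≤ K →
      ((sN C g K * (1 + 8 * wn K) : ℕ) : ℝ) ≤ c * (K:ℝ) ^ (2/3 + 3 * d) := by
  obtain ⟨c1, hc1, h1⟩ := H.n1
  obtain ⟨c7, hc7, h7⟩ := H.n7
  have hC : (1:ℝ) ≤ C := by exact_mod_cast H.C1
  refine ⟨(32 * C * c1 + 1) * (1 + 8 * c7), by positivity, fun K hK1 => ?_⟩
  have hK : 1 ≤ K := H.K1pos.trans hK1
  have hKr : (1:ℝ) ≤ K := by exact_mod_cast hK
  have hKp : (0:ℝ) < K := by linarith
  have hgp := H.gpos K hK1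
  have hg0 : (0:ℝ) < g K := by exact_mod_cast hgp
  have hKd : (1:ℝ) ≤ (K:ℝ) ^ d := Real.one_le_rpow hKr hd.le
  have e1 : (32 * C * K : ℝ) / g K ≤ 32 * C * c1 * (K:ℝ) ^ (2/3 + d) := by
    rw [div_le_iff₀ hg0]
    have := h1 K hK1
    have e2 : (K:ℝ) = (K:ℝ) ^ (2/3 + d) * (K:ℝ) ^ (1/3 - d) := by
      rw [← Real.rpow_add hKp]
      rw [show (2/3 + d + (1/3 - d) : ℝ) = 1 by ring, Real.rpow_one]
    calc (32 * C * K : ℝ) = 32 * C * ((K:ℝ) ^ (2/3 + d) * (K:ℝ) ^ (1/3 - d)) := by rw [← e2]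
      _ ≤ 32 * C * ((K:ℝ) ^ (2/3 + d) * (c1 * g K)) := by gcongr
      _ = _ := by ring
  have e3 : (1:ℝ) ≤ (K:ℝ) ^ (2/3 + d) := Real.one_le_rpow hKr (by linarith)
  have e4 : (sN C g K : ℝ) ≤ (32 * C * c1 + 1) * (K:ℝ) ^ (2/3 + d) := by
    have := sN_le C g K hgp
    nlinarith
  have e5 : (1 + 8 * (wn K : ℝ)) ≤ (1 + 8 * c7) * (K:ℝ) ^ d := by
    have := h7 K hK1
    nlinarith
  push_cast
  calc (sN C g K : ℝ) * (1 + 8 * (wn K : ℝ))
      ≤ ((32 * C * c1 + 1) * (K:ℝ) ^ (2/3 + d)) * ((1 + 8 * c7) * (K:ℝ) ^ d) := by gcongr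
    _ = (32 * C * c1 + 1) * (1 + 8 * c7) * ((K:ℝ) ^ (2/3 + d) * (K:ℝ) ^ d) := by ring
    _ = (32 * C * c1 + 1) * (1 + 8 * c7) * (K:ℝ) ^ (2/3 + 2 * d) := by
        rw [← Real.rpow_add hKp]
        congr 2
        ring
    _ ≤ (32 * C * c1 + 1) * (1 + 8 * c7) * (K:ℝ) ^ (2/3 + 3 * d) := by
        refine mul_le_mul_of_nonneg_left ?_ (by positivity)
        exact Real.rpow_le_rpow_of_exponent_le hKr (by linarith)

lemma NumHyp.Fb_bd (H : NumHyp C K1 d g mm ε near wn a0) (hd : 0 < d) :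
    ∃ c : ℝ, 0 < c ∧ ∀ K0 K : ℕ, K1 ≤ K0 → K1 ≤ K →
      (Fb K0 g (sN C g) 8 near wn K : ℝ) ≤ c * (K:ℝ) ^ (2/3 + 3 * d) := by
  obtain ⟨c, hc, h⟩ := H.near_sum hd
  obtain ⟨c', hc', h'⟩ := H.far_bd hd
  refine ⟨c + c', by positivity, fun K0 K hK0 hK => ?_⟩
  unfold Fb
  rw [Nat.cast_add, add_mul]
  exact add_le_add (h K0 K hK0 hK) (h' K hK)

/-- the final bound of the number of representations -/
lemma NumHyp.rep (H : NumHyp C K1 d g mm ε near wn a0) (hd : 0 < d) :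
    ∀ K0 : ℕ, K1 ≤ K0 → ∃ n0 : ℕ, ∀ n : ℕ, n0 ≤ n →
      ((2 * (Fb K0 g (sN C g) 8 near wn (Nat.log 2 n - 1) +
        Fb K0 g (sN C g) 8 near wn (Nat.log 2 n)) : ℕ) : ℝ) ≤ (Real.log n) ^ (2/3 + 6 * d) := by
  intro K0 hK0
  obtain ⟨c, hc, h⟩ := H.Fb_bd hd
  have hlogn : Tendsto (fun n : ℕ => Real.log (n:ℝ)) atTop atTop :=
    Real.tendsto_log_atTop.comp tendsto_natCast_atTop_atTop
  have hev : ∀ᶠ n : ℕ in atTop, 4 * c * 2 ^ (2/3 + 3 * d) ≤ (Real.log (n:ℝ)) ^ (3 * d) :=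
    ((tendsto_rpow_atTop (by positivity)).comp hlogn).eventually_ge_atTop _
  obtain ⟨n0, hn0⟩ := (hev.and (eventually_ge_atTop (2 ^ (K1 + 2)))).exists_forall_of_atTop
  refine ⟨n0, fun n hn => ?_⟩
  obtain ⟨h1, h2⟩ := hn0 n hn
  set L := Nat.log 2 n with hL
  have hLK : K1 + 2 ≤ L := by
    rw [hL]
    exact Nat.le_log_of_pow_le one_lt_two h2
  have hn1 : n ≠ 0 := by
    have : 0 < 2 ^ (K1 + 2) := by positivity
    omega
  have hnr : (1:ℝ) ≤ n := by exact_mod_cast Nat.one_le_iff_ne_zero.2 hn1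
  have hlog0 : 0 ≤ Real.log (n:ℝ) := Real.log_nonneg hnr
  have hLr : (L:ℝ) ≤ 2 * Real.log n := by
    have e1 : ((2 ^ L : ℕ) : ℝ) ≤ n := by exact_mod_cast Nat.pow_log_le_self 2 hn1
    have e2 : (L:ℝ) * Real.log 2 ≤ Real.log n := by
      rw [← Real.log_pow]
      refine Real.log_le_log (by positivity) ?_
      push_cast at e1
      exact e1
    have e3 := Real.log_two_gt_d9
    have e4 : (0:ℝ) ≤ L := Nat.cast_nonneg _
    nlinarith
  have hL1 : ((L - 1 : ℕ) : ℝ) ≤ (L:ℝ) := by exact_mod_cast Nat.sub_le _ _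
  have hLpos : (0:ℝ) ≤ ((L - 1 : ℕ) : ℝ) := Nat.cast_nonneg _
  have hlogpos : 0 < Real.log (n:ℝ) := by
    have : (2:ℝ) ≤ L := by
      have : 2 ≤ L := by omega
      exact_mod_cast this
    linarith
  have b1 := h K0 (L-1) hK0 (by omega)
  have b2 := h K0 L hK0 (by omega)
  have b3 : ((L - 1 : ℕ) : ℝ) ^ (2/3 + 3 * d) ≤ (2 * Real.log n) ^ (2/3 + 3 * d) :=
    Real.rpow_le_rpow hLpos (hL1.trans hLr) (by positivity)
  have b4 : (L : ℝ) ^ (2/3 + 3 * d) ≤ (2 * Real.log n) ^ (2/3 + 3 * d) :=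
    Real.rpow_le_rpow (Nat.cast_nonneg _) hLr (by positivity)
  have b5 : (2 * Real.log n) ^ (2/3 + 3 * d) = 2 ^ (2/3 + 3 * d) * (Real.log n) ^ (2/3 + 3 * d) :=
    Real.mul_rpow (by norm_num) hlog0
  have b6 : (Real.log n) ^ (2/3 + 6 * d) = (Real.log n) ^ (3 * d) * (Real.log n) ^ (2/3 + 3 * d) := by
    rw [← Real.rpow_add hlogpos]
    congr 1
    ring
  rw [b6]
  have b7 : 0 ≤ (Real.log n) ^ (2/3 + 3 * d) := by positivity
  push_cast
  calc (2:ℝ) * ((Fb K0 g (sN C g) 8 near wn (L - 1) : ℝ) + (Fb K0 g (sN C g) 8 near wn L : ℝ))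
      ≤ 2 * (c * (2 * Real.log n) ^ (2/3 + 3 * d) + c * (2 * Real.log n) ^ (2/3 + 3 * d)) := by
        have c1 := mul_le_mul_of_nonneg_left b3 hc.le
        have c2 := mul_le_mul_of_nonneg_left b4 hc.le
        linarith
    _ = 4 * c * 2 ^ (2/3 + 3 * d) * (Real.log n) ^ (2/3 + 3 * d) := by rw [b5]; ring
    _ ≤ (Real.log n) ^ (3 * d) * (Real.log n) ^ (2/3 + 3 * d) :=
        mul_le_mul_of_nonneg_right h1 b7

/-- **Frame theorem with numbers.** -/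
theorem frame_numbers (H : NumHyp C K1 d g mm ε near wn a0) (hd : 0 < d) (hd3 : d < 1/3)
    (cnt : ℕ → ℕ) (h : ∀ Kmax, LayHyp Kmax K1 g mm ε near wn a0 cnt) :
    ∃ (A : Set ℕ) (K0 n0 : ℕ), K1 ≤ K0 ∧
      (∀ n, {q : ℕ × ℕ | q.1 ∈ A ∧ q.2 ∈ A ∧ q.1 + q.2 = n}.ncard ≤
        2 * (Fb K0 g (sN C g) 8 near wn (Nat.log 2 n - 1) +
          Fb K0 g (sN C g) 8 near wn (Nat.log 2 n))) ∧
      (∀ n : ℕ, n0 ≤ n → (({q : ℕ × ℕ | q.1 ∈ A ∧ q.2 ∈ A ∧ q.1 + q.2 = n}.ncard : ℕ) : ℝ) ≤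
        (Real.log n) ^ (2/3 + 6 * d)) ∧
      ∀ K, K0 ≤ K → cnt K ≤ (A ∩ Set.Ico (2 ^ K) (2 ^ (K + 1))).ncard := by
  obtain ⟨K0, hK0, hf⟩ := H.fail hd3
  obtain ⟨n0, hn0⟩ := H.rep hd K0 hK0
  obtain ⟨A, hA1, hA2⟩ := frame K0 g mm (sN C g) 8 (by norm_num) ε near wn a0 cnt
    (fun Kmax => (h Kmax).mono hK0) hf
  refine ⟨A, K0, n0, hK0, hA1, fun n hn => ?_, hA2⟩
  exact le_trans (by exact_mod_cast hA1 n) (hn0 n hn)

end Pool.Agent.Helper82.ETN
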