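import Mathlib
import Pool.Agent.Helper82.ETN.Num2
import Pool.Agent.Helper29.ETK.Sched

/-!
# E-T (MP_12a1af_nt), project T*: sizes of the quantities of the schedule
-/

open Finset Filter Topology

namespace Pool.Agent.Helper82.ETN

open Pool.Agent.ETP Pool.Agent.Helper29.ETK

lemma CC_pos (c : ℕ) : 0 < CC c := by unfold CC; positivity

lemma one_lt_CC {c : ℕ} (hc : 1 ≤ c) : 1 < CC c := by
  unfold CC
  exact Nat.one_lt_two_pow (by omega)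

lemma pow_lg_le {c K : ℕ} (hK : 1 ≤ K) : CC c ^ lg c K ≤ K :=
  Nat.pow_log_le_self _ (by omega)

lemma lt_pow_lg {c K : ℕ} (hc : 1 ≤ c) : K < CC c ^ (lg c K + 1) :=
  Nat.lt_pow_succ_log_self (one_lt_CC hc) K

lemma Wd_pow_three_le {c K : ℕ} (hK : 1 ≤ K) : Wd c K ^ 3 ≤ K := by
  refine le_trans ?_ (pow_lg_le (c := c) hK)
  unfold Wd ep
  rw [← pow_mul]
  exact Nat.pow_le_pow_right (CC_pos c) (by omega)

lemma lt_Wd_pow_three {c K : ℕ} (hc : 1 ≤ c) : K < (CC c * Wd c K) ^ 3 := by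
  refine (lt_pow_lg hc).trans_le ?_
  unfold Wd ep
  rw [← pow_succ', ← pow_mul]
  exact Nat.pow_le_pow_right (CC_pos c) (by omega)

lemma Hb_eq (c K : ℕ) : Hb c K = CC c ^ 8 * Wd c K := by
  unfold Hb j0 Wd
  rw [← pow_add, add_comm]

/-- cube roots -/
lemma le_cbrt {a K : ℕ} (h : a ^ 3 ≤ K) : (a:ℝ) ≤ (K:ℝ) ^ (1/3 : ℝ) := by
  have h1 : ((a:ℝ) ^ (3:ℕ)) ≤ K := by exact_mod_cast h
  have h2 : (a:ℝ) = ((a:ℝ) ^ (3:ℕ)) ^ (1/3:ℝ) := by
    rw [← Real.rpow_natCast, ← Real.rpow_mul (Nat.cast_nonneg _)]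
    norm_num
  rw [h2]
  exact Real.rpow_le_rpow (by positivity) h1 (by norm_num)

lemma cbrt_le {a K : ℕ} (h : K ≤ a ^ 3) : (K:ℝ) ^ (1/3 : ℝ) ≤ a := by
  have h1 : (K:ℝ) ≤ ((a:ℝ) ^ (3:ℕ)) := by exact_mod_cast h
  have h2 : (a:ℝ) = ((a:ℝ) ^ (3:ℕ)) ^ (1/3:ℝ) := by
    rw [← Real.rpow_natCast, ← Real.rpow_mul (Nat.cast_nonneg _)]
    norm_num
  rw [h2]
  exact Real.rpow_le_rpow (by positivity) h1 (by norm_num)

lemma two_pow_kk_le (E : ℕ) : 2 ^ kk E ≤ 16 * (3 * E + 10) := by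
  unfold kk
  have h := Nat.pow_pred_clog_lt_self (b := 2) one_lt_two (x := 8 * (3 * E + 10)) (by omega)
  have h2 : 0 < Nat.clog 2 (8 * (3 * E + 10)) := Nat.clog_pos one_lt_two (by omega)
  obtain ⟨k, hk⟩ : ∃ k, Nat.clog 2 (8 * (3 * E + 10)) = k + 1 :=
    ⟨Nat.clog 2 (8 * (3 * E + 10)) - 1, by omega⟩
  rw [hk] at h ⊢
  simp only [Nat.pred_eq_sub_one, Nat.add_sub_cancel] at h
  rw [pow_succ]
  omega

/-- lower bound of the near threshold -/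
lemma gth_ge (c K : ℕ) (hc : 1 ≤ c) :
    K ≤ (CC c ^ 4 * (2 ^ 14 * (3 * lg c K + 10)) * gth c K) ^ 3 := by
  have h1 := lt_pow_lg (c := c) (K := K) hc
  set E := epo c K with hE
  have hlE : lg c K ≤ 3 * E + 3 := by rw [hE]; unfold epo; omega
  have hElg : E ≤ lg c K := by rw [hE]; unfold epo; omega
  have h2 : CC c ^ (E - 1 - 1) ≤ gth c K * 2 ^ (10 + kk (E - 1)) := by
    unfold gth Gq CC
    rw [← hE, ← pow_mul, ← pow_add]
    exact Nat.pow_le_pow_right two_pos (by omega)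
  have h3 : 2 ^ (10 + kk (E - 1)) ≤ 2 ^ 14 * (3 * lg c K + 10) := by
    rw [pow_add]
    have := two_pow_kk_le (E - 1)
    have h4 : 16 * (3 * (E - 1) + 10) ≤ 16 * (3 * lg c K + 10) := by omega
    calc 2 ^ 10 * 2 ^ kk (E - 1) ≤ 2 ^ 10 * (16 * (3 * lg c K + 10)) :=
          Nat.mul_le_mul_left _ (this.trans h4)
      _ = 2 ^ 14 * (3 * lg c K + 10) := by ring
  have h5 : CC c ^ (E - 1 - 1) ≤ (2 ^ 14 * (3 * lg c K + 10)) * gth c K := by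
    calc CC c ^ (E - 1 - 1) ≤ gth c K * 2 ^ (10 + kk (E - 1)) := h2
      _ ≤ gth c K * (2 ^ 14 * (3 * lg c K + 10)) := Nat.mul_le_mul_left _ h3
      _ = _ := by ring
  calc K ≤ CC c ^ (lg c K + 1) := h1.le
    _ ≤ CC c ^ (3 * (4 + (E - 1 - 1))) := Nat.pow_le_pow_right (CC_pos c) (by omega)
    _ = (CC c ^ 4 * CC c ^ (E - 1 - 1)) ^ 3 := by rw [← pow_add, ← pow_mul]; congr 1; ring
    _ ≤ (CC c ^ 4 * ((2 ^ 14 * (3 * lg c K + 10)) * gth c K)) ^ 3 :=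
        Nat.pow_le_pow_left (Nat.mul_le_mul_left _ h5) 3
    _ = _ := by ring

lemma gth_pos (c K : ℕ) : 1 ≤ gth c K := by
  unfold gth Gq
  exact Nat.one_le_two_pow

/-- upper bound of the near threshold -/
lemma gth_le {c K : ℕ} (hK : 1 ≤ K) : gth c K ^ 3 ≤ K := by
  rcases Nat.eq_zero_or_pos (lg c K) with h | h
  · have : gth c K = 1 := by
      unfold gth Gq epo
      rw [h]
      simp
    rw [this]
    simpa using hK
  · have h1 : gth c K ≤ CC c ^ epo c K := by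
      unfold gth Gq CC
      rw [← pow_mul]
      refine Nat.pow_le_pow_right two_pos ?_
      have : c * (epo c K - 1 - 1) ≤ c * epo c K := Nat.mul_le_mul_left _ (by omega)
      omega
    calc gth c K ^ 3 ≤ (CC c ^ epo c K) ^ 3 := Nat.pow_le_pow_left h1 3
      _ = CC c ^ (3 * epo c K) := by rw [← pow_mul, mul_comm]
      _ ≤ CC c ^ lg c K := Nat.pow_le_pow_right (CC_pos c) (by unfold epo; omega)
      _ ≤ K := pow_lg_le hK

lemma wb_le (c K : ℕ) : wb c K ≤ K := by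
  unfold wb
  exact Nat.findGreatest_le _

lemma ep_mono {c s t : ℕ} (h : s ≤ t) : ep c s ≤ ep c t :=
  Nat.div_le_div_right (Nat.log_mono_right h)

lemma Hb_dvd {c s t : ℕ} (h : s ≤ t) : Hb c s ∣ Hb c t := by
  unfold Hb j0
  exact pow_dvd_pow _ (by have := ep_mono (c := c) h; omega)

lemma Hb_pos (c s : ℕ) : 0 < Hb c s := by
  unfold Hb
  exact pow_pos (CC_pos c) _

lemma Hb_mono {c s t : ℕ} (h : s ≤ t) : Hb c s ≤ Hb c t := Nat.le_of_dvd (Hb_pos c t) (Hb_dvd h)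

lemma lg_le_log {c K : ℕ} (hc : 2 ≤ c) (hK : 1 ≤ K) : (lg c K : ℝ) ≤ Real.log K := by
  have h1 : ((2 ^ (c * lg c K) : ℕ) : ℝ) ≤ K := by
    have := pow_lg_le (c := c) hK
    unfold CC at this
    rw [← pow_mul] at this
    exact_mod_cast this
  have h2 : ((c * lg c K : ℕ) : ℝ) * Real.log 2 ≤ Real.log K := by
    rw [← Real.log_pow]
    refine Real.log_le_log (by positivity) ?_
    push_cast at h1
    exact h1
  have h3 := Real.log_two_gt_d9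
  have h4 : (2:ℝ) ≤ c := by exact_mod_cast hc
  have h5 : (0:ℝ) ≤ lg c K := Nat.cast_nonneg _
  push_cast at h2
  have h6 : (lg c K : ℝ) ≤ (c * lg c K) * Real.log 2 := by
    have : 1 ≤ (c:ℝ) * Real.log 2 := by nlinarith
    nlinarith
  linarith

/-- constants to the number of levels -/
lemma pow_lg_le_rpow {c K a b : ℕ} (mu : ℝ) (hmu : 1 ≤ mu) (d : ℝ) (hd : 0 ≤ d) (hK : 1 ≤ K)
    (hcd : (a:ℝ) * Real.log mu ≤ d * (c * Real.log 2)) :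
    mu ^ (a * lg c K + b) ≤ mu ^ b * (K:ℝ) ^ d := by
  have hK0 : (1:ℝ) ≤ K := by exact_mod_cast hK
  have hmu0 : 0 < mu := by linarith
  rw [pow_add, mul_comm]
  refine mul_le_mul_of_nonneg_left ?_ (by positivity)
  have h1 : ((2 ^ (c * lg c K) : ℕ) : ℝ) ≤ K := by
    have := pow_lg_le (c := c) hK
    unfold CC at this
    rw [← pow_mul] at this
    exact_mod_cast this
  have h2 : ((c * lg c K : ℕ) : ℝ) * Real.log 2 ≤ Real.log K := by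
    rw [← Real.log_pow]
    refine Real.log_le_log (by positivity) ?_
    push_cast at h1
    exact h1
  push_cast at h2
  have h5 : (0:ℝ) ≤ lg c K := Nat.cast_nonneg _
  rw [← Real.rpow_natCast mu, Real.rpow_def_of_pos hmu0,
    Real.rpow_def_of_pos (by linarith : (0:ℝ) < K), Real.exp_le_exp]
  push_cast
  calc Real.log mu * (a * lg c K) = (a * Real.log mu) * lg c K := by ring
    _ ≤ (d * (c * Real.log 2)) * lg c K := mul_le_mul_of_nonneg_right hcd h5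
    _ = d * (c * lg c K * Real.log 2) := by ring
    _ ≤ d * Real.log K := mul_le_mul_of_nonneg_left h2 hd
    _ = Real.log K * d := by ring

/-- polynomials of the logarithm below a power, for all `K ≥ 1` -/
lemma log_pow_le_all (p : ℕ) (d : ℝ) (hd : 0 < d) : ∃ c : ℝ, 0 < c ∧ ∀ K : ℕ, 1 ≤ K →
    (1 + Real.log (K:ℝ)) ^ p ≤ c * (K:ℝ) ^ d := by
  obtain ⟨N, hN⟩ := (ev_log_pow_le 1 (p:ℝ) d hd).exists_forall_of_atTop
  refine ⟨1 + (1 + Real.log (N + 1)) ^ p, ?_, fun K hK => ?_⟩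
  · have : 0 ≤ Real.log ((N:ℝ) + 1) := Real.log_nonneg (by linarith [Nat.cast_nonneg (α := ℝ) N])
    positivity
  · have hK0 : (1:ℝ) ≤ K := by exact_mod_cast hK
    have hKd : (1:ℝ) ≤ (K:ℝ) ^ d := Real.one_le_rpow hK0 hd.le
    have hlN : 0 ≤ Real.log ((N:ℝ) + 1) := Real.log_nonneg (by linarith [Nat.cast_nonneg (α := ℝ) N])
    have hlK : 0 ≤ Real.log (K:ℝ) := Real.log_nonneg hK0
    rcases le_total N K with hNK | hNK
    · have e1 := hN K hNK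
      rw [Real.rpow_natCast, one_mul] at e1
      have e2 : 0 ≤ (1 + Real.log ((N:ℝ) + 1)) ^ p * (K:ℝ) ^ d := by positivity
      nlinarith
    · have e1 : Real.log (K:ℝ) ≤ Real.log ((N:ℝ) + 1) :=
        Real.log_le_log (by linarith) (by
          have : (K:ℝ) ≤ N := by exact_mod_cast hNK
          linarith)
      have e2 : (1 + Real.log (K:ℝ)) ^ p ≤ (1 + Real.log ((N:ℝ) + 1)) ^ p :=
        pow_le_pow_left₀ (by positivity) (by linarith) p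
      have e3 : 0 ≤ (1 + Real.log ((N:ℝ) + 1)) ^ p := by positivity
      nlinarith

lemma Wd_le_rpow {c K : ℕ} (hK : 1 ≤ K) : (Wd c K : ℝ) ≤ (K:ℝ) ^ (1/3 : ℝ) :=
  le_cbrt (Wd_pow_three_le hK)

lemma Hb_le_rpow {c K : ℕ} (hK : 1 ≤ K) : (Hb c K : ℝ) ≤ (CC c : ℝ) ^ 8 * (K:ℝ) ^ (1/3 : ℝ) := by
  rw [Hb_eq]
  push_cast
  exact mul_le_mul_of_nonneg_left (Wd_le_rpow hK) (by positivity)

lemma exists_Hb_le (c : ℕ) : ∃ H0 : ℝ, 1 ≤ H0 ∧ ∀ K : ℕ, 1 ≤ K →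
    (Hb c K : ℝ) ≤ H0 * (K:ℝ) ^ (1/3 : ℝ) :=
  ⟨(CC c : ℝ) ^ 8, one_le_pow₀ (by exact_mod_cast CC_pos c), fun _ hK => Hb_le_rpow hK⟩

lemma exists_le_gth {c : ℕ} (hc : 2 ≤ c) : ∃ G0 : ℝ, 0 < G0 ∧ ∀ K : ℕ, 1 ≤ K →
    (K:ℝ) ^ (1/3 : ℝ) ≤ G0 * (1 + Real.log K) * gth c K := by
  have hC1 : (1:ℝ) ≤ CC c := by exact_mod_cast CC_pos c
  refine ⟨(CC c : ℝ) ^ 4 * ((2 ^ 14 * 10 : ℕ) : ℝ), by positivity, fun K hK => ?_⟩
  have h1 := cbrt_le (gth_ge c K (by omega))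
  have h2 := lg_le_log hc hK
  have h0 : (0:ℝ) ≤ lg c K := Nat.cast_nonneg _
  have h3 : ((2 ^ 14 * (3 * lg c K + 10) : ℕ) : ℝ) ≤ ((2 ^ 14 * 10 : ℕ) : ℝ) * (1 + Real.log K) := by
    push_cast
    linarith
  have h4 : ((CC c ^ 4 * (2 ^ 14 * (3 * lg c K + 10)) * gth c K : ℕ) : ℝ) =
      (CC c : ℝ) ^ 4 * ((2 ^ 14 * (3 * lg c K + 10) : ℕ) : ℝ) * gth c K := by
    rw [Nat.cast_mul, Nat.cast_mul, Nat.cast_pow]
  rw [h4] at h1
  refine h1.trans ?_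
  have h5 : (0:ℝ) ≤ gth c K := Nat.cast_nonneg _
  have h6 : (0:ℝ) ≤ (CC c : ℝ) ^ 4 := by positivity
  calc (CC c : ℝ) ^ 4 * ((2 ^ 14 * (3 * lg c K + 10) : ℕ) : ℝ) * gth c K
      ≤ (CC c : ℝ) ^ 4 * (((2 ^ 14 * 10 : ℕ) : ℝ) * (1 + Real.log K)) * gth c K :=
        mul_le_mul_of_nonneg_right (mul_le_mul_of_nonneg_left h3 h6) h5
    _ = _ := by ring

lemma aux_n6 {B M M0 L L0 W X H0 Y D H Z : ℝ} (hB : 0 ≤ B) (hM : M ≤ M0 * Z) (hL : L ≤ L0 * Z)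
    (hL1 : 0 ≤ L) (hM0 : 0 ≤ M0) (hZ : 0 ≤ Z) (hL0 : 0 ≤ L0) (hW : W ≤ X) (hW0 : 0 ≤ W)
    (hX0 : 0 ≤ X) (h5 : 1 + H / D ≤ H0 * (1 + Y / D)) (h4 : 0 ≤ 1 + H / D) :
    B * M * L * W * (1 + H / D) ≤ B * M0 * L0 * H0 * (Z * Z * X) * (1 + Y / D) := by
  have g1 : B * M ≤ B * (M0 * Z) := mul_le_mul_of_nonneg_left hM hB
  have g2 : B * M * L ≤ B * (M0 * Z) * (L0 * Z) :=
    mul_le_mul g1 hL hL1 (mul_nonneg hB (mul_nonneg hM0 hZ))
  have h6 : 0 ≤ B * (M0 * Z) * (L0 * Z) :=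
    mul_nonneg (mul_nonneg hB (mul_nonneg hM0 hZ)) (mul_nonneg hL0 hZ)
  have g3 : B * M * L * W ≤ B * (M0 * Z) * (L0 * Z) * X := mul_le_mul g2 hW hW0 h6
  calc B * M * L * W * (1 + H / D)
      ≤ B * (M0 * Z) * (L0 * Z) * X * (H0 * (1 + Y / D)) :=
        mul_le_mul g3 h5 h4 (mul_nonneg h6 hX0)
    _ = B * M0 * L0 * H0 * (Z * Z * X) * (1 + Y / D) := by ring

/-- **The numerical hypotheses for the quantities of the schedule.** -/
theorem numHyp_sched_at {c K1 : ℕ} {d : ℝ} (hd : 0 < d) (hc : 2 ≤ c) (hK1 : 1 ≤ K1)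
    (mu : ℝ) (hmu : 1 ≤ mu) (a b p : ℕ) (hcd : (a:ℝ) * Real.log mu ≤ d * (c * Real.log 2))
    (B : ℝ) (hB : 0 < B) {mm : ℕ → ℕ} {ε : ℕ → ℝ} {near : ℕ → ℕ → ℕ} {wn : ℕ → ℕ}
    (hmm : ∀ K, K1 ≤ K → (mm K : ℝ) ≤ B * (K:ℝ) ^ 2)
    (hε : ∀ K, K1 ≤ K → 0 ≤ ε K ∧ ε K ≤ (1/2) ^ (gth c K / (8 * CC c)))
    (hnear : ∀ K K' : ℕ, K1 ≤ K' → K' ≤ K → K < K' + gth c K → (near K K' : ℝ) ≤
      B * mu ^ (a * lg c K + b) * (1 + lg c K : ℝ) ^ p * Wd c K *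
        (1 + (Hb c K : ℝ) / ((K - K' : ℕ) + 1 : ℝ)))
    (hwn : ∀ K : ℕ, K1 ≤ K → (wn K : ℝ) ≤
      B * (1 + lg c K : ℝ) ^ p * (1 + (Hb c K : ℝ) / gth c K))
    (hwb : ∀ K, K1 ≤ K → 7 * K ≤ 8 * wb c K ∧ wb c K ≤ K) :
    NumHyp (CC c) K1 (2 * d) (gth c) mm ε near wn (wb c) := by
  obtain ⟨H0, hH1, hHb⟩ := exists_Hb_le c
  obtain ⟨G0, hG0, hG⟩ := exists_le_gth hc
  obtain ⟨c0, hc0, hlog⟩ := log_pow_le_all p d hd
  obtain ⟨c1, hc1, hlog1⟩ := log_pow_le_all (p+1) (2*d) (by positivity)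
  obtain ⟨c2, hc2, hlog2⟩ := log_pow_le_all 1 (2*d) (by positivity)
  have hH0 : 0 < H0 := by linarith
  have hmu0 : 0 < mu := by linarith
  have hmub : 0 < mu ^ b := by positivity
  refine ⟨CC_pos c, hK1, fun K _ => gth_pos c K,
    ?_, ?_, ⟨B, hB, fun K hK => hmm K hK⟩, fun K hK => hε K hK, hwb, ?_, ?_⟩
  · -- n1
    refine ⟨G0 * c2, by positivity, fun K hK => ?_⟩
    have hK' : 1 ≤ K := hK1.trans hK
    have hKr : (1:ℝ) ≤ K := by exact_mod_cast hK'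
    have hKp : (0:ℝ) < K := by linarith
    have e1 := hG K hK'
    have e2 := hlog2 K hK'
    rw [pow_one] at e2
    have e4 : (K:ℝ) ^ (1/3 - 2*d) * (K:ℝ) ^ (2*d) = (K:ℝ) ^ (1/3:ℝ) := by
      rw [← Real.rpow_add hKp]
      congr 1
      ring
    have e5 : 0 < (K:ℝ) ^ (2*d) := Real.rpow_pos_of_pos hKp _
    refine le_of_mul_le_mul_right ?_ e5
    rw [e4]
    calc (K:ℝ) ^ (1/3:ℝ) ≤ G0 * (1 + Real.log K) * gth c K := e1
      _ ≤ G0 * (c2 * (K:ℝ) ^ (2*d)) * gth c K :=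
          mul_le_mul_of_nonneg_right (mul_le_mul_of_nonneg_left e2 hG0.le) (Nat.cast_nonneg _)
      _ = G0 * c2 * gth c K * (K:ℝ) ^ (2*d) := by ring
  · -- n2
    refine ⟨1, one_pos, fun K hK => ?_⟩
    have hK' : 1 ≤ K := hK1.trans hK
    have hKr : (1:ℝ) ≤ K := by exact_mod_cast hK'
    rw [one_mul]
    refine (le_cbrt (gth_le hK')).trans ?_
    exact Real.rpow_le_rpow_of_exponent_le hKr (by linarith)
  · -- n6
    refine ⟨B * mu ^ b * c0 * H0, mul_pos (mul_pos (mul_pos hB hmub) hc0) hH0,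
      fun K K' hK' hKK hg => ?_⟩
    have hK : 1 ≤ K := (hK1.trans hK').trans hKK
    have hKr : (1:ℝ) ≤ K := by exact_mod_cast hK
    have hKp : (0:ℝ) < K := by linarith
    refine (hnear K K' hK' hKK hg).trans ?_
    have e1 := pow_lg_le_rpow (c := c) (K := K) (a := a) (b := b) mu hmu d hd.le hK hcd
    have e2 : (1 + lg c K : ℝ) ^ p ≤ c0 * (K:ℝ) ^ d := by
      refine le_trans ?_ (hlog K hK)
      refine pow_le_pow_left₀ (add_nonneg zero_le_one (Nat.cast_nonneg _)) ?_ p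
      have := lg_le_log hc hK
      linarith
    have e3 := Wd_le_rpow (c := c) hK
    have e4 := hHb K hK
    set D : ℝ := ((K - K' : ℕ) + 1 : ℝ) with hD
    have hD0 : 0 < D := by rw [hD]; exact Nat.cast_add_one_pos _
    set X : ℝ := (K:ℝ) ^ (1/3 : ℝ) with hX
    set Y : ℝ := (K:ℝ) ^ (1/3 + 2*d) with hY
    set Z : ℝ := (K:ℝ) ^ d with hZ
    have hX0 : 0 < X := Real.rpow_pos_of_pos hKp _
    have hY0 : 0 < Y := Real.rpow_pos_of_pos hKp _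
    have hZ0 : 0 < Z := Real.rpow_pos_of_pos hKp _
    have hXY : Z * Z * X = Y := by
      rw [hX, hY, hZ, ← Real.rpow_add hKp, ← Real.rpow_add hKp]
      congr 1
      ring
    have e5 : (1 + (Hb c K : ℝ) / D) ≤ H0 * (1 + Y / D) := by
      have f1 : X ≤ Y := Real.rpow_le_rpow_of_exponent_le hKr (by linarith)
      have f2 : (Hb c K : ℝ) / D ≤ H0 * (Y / D) := by
        rw [← mul_div_assoc]
        refine div_le_div_of_nonneg_right ?_ hD0.le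
        exact e4.trans (mul_le_mul_of_nonneg_left f1 hH0.le)
      rw [mul_add, mul_one]
      linarith
    have g4 : (0:ℝ) ≤ 1 + (Hb c K : ℝ) / D :=
      add_nonneg zero_le_one (div_nonneg (Nat.cast_nonneg _) hD0.le)
    have g5 := aux_n6 hB.le e1 e2
      (pow_nonneg (add_nonneg zero_le_one (Nat.cast_nonneg _)) p) hmub.le hZ0.le hc0.le e3 (Nat.cast_nonneg _)
      hX0.le e5 g4
    rw [hXY] at g5
    exact g5
  · -- n7
    refine ⟨B * (1 + H0 * G0) * c1, by positivity, fun K hK => ?_⟩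
    have hK' : 1 ≤ K := hK1.trans hK
    have hKr : (1:ℝ) ≤ K := by exact_mod_cast hK'
    have hlK : 0 ≤ Real.log (K:ℝ) := Real.log_nonneg hKr
    refine (hwn K hK).trans ?_
    have hg0 : (0:ℝ) < gth c K := by exact_mod_cast gth_pos c K
    have e1 : (Hb c K : ℝ) / gth c K ≤ H0 * G0 * (1 + Real.log K) := by
      rw [div_le_iff₀ hg0]
      have f1 := hHb K hK'
      have f2 := hG K hK'
      calc (Hb c K : ℝ) ≤ H0 * (K:ℝ) ^ (1/3 : ℝ) := f1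
        _ ≤ H0 * (G0 * (1 + Real.log K) * gth c K) := mul_le_mul_of_nonneg_left f2 hH0.le
        _ = _ := by ring
    have e2 : (1 + lg c K : ℝ) ^ p ≤ (1 + Real.log K) ^ p := by
      refine pow_le_pow_left₀ (add_nonneg zero_le_one (Nat.cast_nonneg _)) ?_ p
      have := lg_le_log hc hK'
      linarith
    have e3 : 1 + (Hb c K : ℝ) / gth c K ≤ (1 + H0 * G0) * (1 + Real.log K) := by nlinarith
    have e4 : B * (1 + lg c K : ℝ) ^ p ≤ B * (1 + Real.log K) ^ p :=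
      mul_le_mul_of_nonneg_left e2 hB.le
    have e5 : (0:ℝ) ≤ 1 + (Hb c K : ℝ) / gth c K :=
      add_nonneg zero_le_one (div_nonneg (Nat.cast_nonneg _) hg0.le)
    have e6 : 0 ≤ B * (1 + Real.log (K:ℝ)) ^ p := mul_nonneg hB.le (pow_nonneg (by linarith) p)
    have e7 := mul_le_mul e4 e3 e5 e6
    have e8 : 0 ≤ B * (1 + H0 * G0) := mul_nonneg hB.le (by positivity)
    have e9 := mul_le_mul_of_nonneg_left (hlog1 K hK') e8
    have e10 : B * (1 + Real.log (K:ℝ)) ^ p * ((1 + H0 * G0) * (1 + Real.log K)) =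
        B * (1 + H0 * G0) * (1 + Real.log K) ^ (p + 1) := by ring
    have e11 : B * (1 + H0 * G0) * (c1 * (K:ℝ) ^ (2*d)) =
        B * (1 + H0 * G0) * c1 * (K:ℝ) ^ (2*d) := by ring
    linarith

lemma NumHyp.mono {C K1 K2 : ℕ} {d : ℝ} {g mm : ℕ → ℕ} {ε : ℕ → ℝ} {near : ℕ → ℕ → ℕ}
    {wn a0 : ℕ → ℕ} (H : NumHyp C K1 d g mm ε near wn a0) (h : K1 ≤ K2) :
    NumHyp C K2 d g mm ε near wn a0 := by
  obtain ⟨h1, h2, h3, ⟨c4, h4, h4'⟩, ⟨c5, h5, h5'⟩, ⟨c6, h6, h6'⟩, h7, h8, ⟨c9, h9, h9'⟩,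
    ⟨c10, h10, h10'⟩⟩ := H
  exact ⟨h1, h2.trans h, fun K hK => h3 K (h.trans hK), ⟨c4, h4, fun K hK => h4' K (h.trans hK)⟩,
    ⟨c5, h5, fun K hK => h5' K (h.trans hK)⟩, ⟨c6, h6, fun K hK => h6' K (h.trans hK)⟩,
    fun K hK => h7 K (h.trans hK), fun K hK => h8 K (h.trans hK),
    ⟨c9, h9, fun K K' hK => h9' K K' (h.trans hK)⟩, ⟨c10, h10, fun K hK => h10' K (h.trans hK)⟩⟩

end Pool.Agent.Helper82.ETN
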