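import Mathlib
import Pool.Agent.Helper82.ETN.Num3
import Pool.Agent.Helper3.ETF.Final

/-!
# E-T (MP_12a1af_nt), project T*: the numerical part of the final assembly
-/

open Finset Filter Topology

namespace Pool.Agent.Helper82.ETN

open Pool.Agent.ETP Pool.Agent.Helper29.ETK

lemma log_two_le (c K : ℕ) (hc : 1 ≤ c) (hK : 1 ≤ K) : Nat.log 2 K + 1 ≤ (c + 1) * (1 + lg c K) := by
  have h1 : 2 ^ Nat.log 2 K ≤ K := Nat.pow_log_le_self 2 (by omega)
  have h2 : K < 2 ^ (c * (lg c K + 1)) := by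
    have := lt_pow_lg (c := c) (K := K) hc
    unfold CC at this
    rwa [← pow_mul] at this
  have h3 : Nat.log 2 K < c * (lg c K + 1) :=
    (Nat.pow_lt_pow_iff_right one_lt_two).1 (h1.trans_lt h2)
  nlinarith

lemma plog_le (c b K : ℕ) (hc : 1 ≤ c) (hK : 1 ≤ K) :
    (plog b K : ℝ) ≤ ((b + 1) * (c + 1) ^ b : ℝ) * (1 + lg c K : ℝ) ^ b := by
  have h1 : plog b K ≤ (b + 1) * ((c + 1) ^ b * (1 + lg c K) ^ b) := by
    unfold plog
    rw [← mul_pow]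
    exact Nat.mul_le_mul (Nat.le_succ b) (Nat.pow_le_pow_left (log_two_le c K hc hK) b)
  have h2 : (plog b K : ℝ) ≤ (((b + 1) * ((c + 1) ^ b * (1 + lg c K) ^ b) : ℕ) : ℝ) := by
    exact_mod_cast h1
  rw [Nat.cast_mul, Nat.cast_mul, Nat.cast_pow, Nat.cast_pow, Nat.cast_add, Nat.cast_add,
    Nat.cast_add, Nat.cast_one] at h2
  linarith

lemma Wd_le_Hb (c K : ℕ) : Wd c K ≤ Hb c K := by
  rw [Hb_eq]
  exact Nat.le_mul_of_pos_left _ (pow_pos (CC_pos c) 8)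

lemma bw_real (c K D : ℕ) : ((1 + CC c ^ ep c K / (D + 1) : ℕ) : ℝ) ≤
    1 + (Hb c K : ℝ) / ((D : ℝ) + 1) := by
  have h1 : ((CC c ^ ep c K / (D + 1) : ℕ) : ℝ) ≤ ((CC c ^ ep c K : ℕ) : ℝ) / ((D + 1 : ℕ) : ℝ) :=
    Nat.cast_div_le
  have h2 : ((CC c ^ ep c K : ℕ) : ℝ) ≤ (Hb c K : ℝ) := by exact_mod_cast Wd_le_Hb c K
  have h3 : (0:ℝ) < ((D + 1 : ℕ) : ℝ) := by exact_mod_cast Nat.succ_pos D
  have h4 := div_le_div_of_nonneg_right h2 h3.le
  rw [Nat.cast_add, Nat.cast_one]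
  rw [Nat.cast_add D 1, Nat.cast_one] at h1 h4
  linarith

lemma aux_near {M P W X Q L Y : ℝ} (hM : 0 ≤ M) (hP0 : 0 ≤ P) (hPQ : P ≤ Q * L) (hQL : 0 ≤ Q * L)
    (hW : 0 ≤ W) (hX : X ≤ Y) (hX0 : 0 ≤ X) :
    M * (P * W) * (P * X) ≤ M * (Q * L) * (Q * L) * W * Y := by
  have h1 : P * P ≤ (Q * L) * (Q * L) := mul_le_mul hPQ hPQ hP0 hQL
  have h2 : M * (P * P) ≤ M * ((Q * L) * (Q * L)) := mul_le_mul_of_nonneg_left h1 hM
  have h3 : M * (P * P) * W ≤ M * ((Q * L) * (Q * L)) * W := mul_le_mul_of_nonneg_right h2 hW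
  have h4 : 0 ≤ M * ((Q * L) * (Q * L)) * W :=
    mul_nonneg (mul_nonneg hM (mul_nonneg hQL hQL)) hW
  have h5 := mul_le_mul h3 hX hX0 h4
  calc M * (P * W) * (P * X) = M * (P * P) * W * X := by ring
    _ ≤ M * ((Q * L) * (Q * L)) * W * Y := h5
    _ = _ := by ring

theorem numPart (a μ : ℕ) : NumPart a μ := by
  intro d hd hd3
  -- the choice of `c`
  set m : ℝ := max 1 (μ : ℝ) with hm
  have hm1 : 1 ≤ m := le_max_left _ _
  obtain ⟨c1, hc1⟩ := exists_nat_ge ((a:ℝ) * Real.log m / (d / 2 * Real.log 2))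
  refine ⟨max c1 2, fun c hc b K1 hK1 hwb _ => ?_⟩
  have hc2 : 2 ≤ c := (le_max_right _ _).trans hc
  have hc3 : (c1 : ℝ) ≤ c := by exact_mod_cast (le_max_left _ _).trans hc
  have hlog2 : 0 < Real.log 2 := Real.log_pos one_lt_two
  have hcd : (a:ℝ) * Real.log m ≤ d / 2 * (c * Real.log 2) := by
    have h1 : (a:ℝ) * Real.log m / (d / 2 * Real.log 2) ≤ c := hc1.trans hc3
    rw [div_le_iff₀ (by positivity)] at h1
    calc (a:ℝ) * Real.log m ≤ c * (d / 2 * Real.log 2) := h1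
      _ = _ := by ring
  set Q : ℝ := ((b + 1) * (c + 1) ^ b : ℝ) with hQ
  have hQ1 : 1 ≤ Q := by
    have h1 : (1:ℝ) ≤ (b:ℝ) + 1 := by linarith [Nat.cast_nonneg (α := ℝ) b]
    have h2 : (1:ℝ) ≤ ((c:ℝ) + 1) ^ b := one_le_pow₀ (by linarith [Nat.cast_nonneg (α := ℝ) c])
    nlinarith
  have hQ0 : 0 < Q := by linarith
  set B : ℝ := Q * Q + (3 * a + 3) with hB
  have hB0 : 0 < B := by positivity
  have hBQ : Q ≤ B := by nlinarith [Nat.cast_nonneg (α := ℝ) a]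
  have key := numHyp_sched_at (c := c) (K1 := K1) (d := d / 2) (by positivity) hc2 hK1 m hm1 a
    (2 * a + 3) (2 * b) hcd B hB0 (mm := mmF a c) (ε := epsF c) (near := nearF a μ b c)
    (wn := wnF b c) ?_ ?_ ?_ ?_ hwb
  · have h2 : 2 * (d / 2) = d := by ring
    rw [h2] at key
    exact key
  · -- mm
    intro K hK
    have hK' : 1 ≤ K := hK1.trans hK
    have h1 : lg c K ≤ K := by
      have := Nat.log_le_self (CC c) K
      exact this
    have h2 : mmF a c K ≤ (3 * a + 3) * K ^ 2 := by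
      unfold mmF lenF
      have h3 : a * (lg c K + 2) ≤ a * (3 * K) := Nat.mul_le_mul_left _ (by omega)
      have h4 : K ≤ K ^ 2 := by nlinarith
      nlinarith
    have h3 : (mmF a c K : ℝ) ≤ (((3 * a + 3) * K ^ 2 : ℕ) : ℝ) := by exact_mod_cast h2
    rw [Nat.cast_mul, Nat.cast_pow, Nat.cast_add, Nat.cast_mul] at h3
    refine h3.trans ?_
    refine mul_le_mul_of_nonneg_right ?_ (sq_nonneg _)
    rw [hB]
    push_cast
    nlinarith
  · -- ε
    intro K _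
    unfold epsF
    exact ⟨by positivity, le_refl _⟩
  · -- near
    intro K K' hK' hKK _
    have hK : 1 ≤ K := (hK1.trans hK').trans hKK
    have h1 := plog_le c b K (by omega) hK
    have h2 := bw_real c K (K - K')
    have hL0 : (0:ℝ) ≤ (1 + lg c K : ℝ) := add_nonneg zero_le_one (Nat.cast_nonneg _)
    have hL1 : (0:ℝ) ≤ (1 + lg c K : ℝ) ^ b := pow_nonneg hL0 b
    have h3 : (nearF a μ b c K K' : ℝ) = (μ:ℝ) ^ (lenF a c K + 3) *
        ((plog b K : ℝ) * (Wd c K : ℝ)) *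
        ((plog b K : ℝ) * ((1 + CC c ^ ep c K / ((K - K') + 1) : ℕ) : ℝ)) := by
      unfold nearF betaF bwF
      rw [Nat.cast_mul, Nat.cast_mul, Nat.cast_mul, Nat.cast_mul, Nat.cast_pow]
      rfl
    have h4 : (μ:ℝ) ^ (lenF a c K + 3) ≤ m ^ (a * lg c K + (2 * a + 3)) := by
      have e1 : lenF a c K + 3 = a * lg c K + (2 * a + 3) := by unfold lenF; ring
      rw [e1]
      exact pow_le_pow_left₀ (Nat.cast_nonneg _) (le_max_right _ _) _
    have h5 : (0:ℝ) ≤ (μ:ℝ) ^ (lenF a c K + 3) := pow_nonneg (Nat.cast_nonneg _) _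
    have h6 := aux_near h5 (Nat.cast_nonneg _) h1 (mul_nonneg hQ0.le hL1) (Nat.cast_nonneg (Wd c K))
      h2 (Nat.cast_nonneg _)
    rw [h3]
    refine h6.trans ?_
    have h7 : (0:ℝ) ≤ 1 + (Hb c K : ℝ) / (((K - K' : ℕ) : ℝ) + 1) :=
      add_nonneg zero_le_one (div_nonneg (Nat.cast_nonneg _)
        (add_nonneg (Nat.cast_nonneg _) zero_le_one))
    have hm0 : (0:ℝ) ≤ m ^ (a * lg c K + (2 * a + 3)) := pow_nonneg (by linarith) _
    have h8 : (μ:ℝ) ^ (lenF a c K + 3) * (Q * (1 + lg c K : ℝ) ^ b) * (Q * (1 + lg c K : ℝ) ^ b) ≤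
        B * m ^ (a * lg c K + (2 * a + 3)) * (1 + lg c K : ℝ) ^ (2 * b) := by
      have e1 : (1 + lg c K : ℝ) ^ (2 * b) = (1 + lg c K : ℝ) ^ b * (1 + lg c K : ℝ) ^ b := by
        rw [two_mul, pow_add]
      rw [e1]
      have e2 : (μ:ℝ) ^ (lenF a c K + 3) * (Q * Q) ≤ m ^ (a * lg c K + (2 * a + 3)) * B := by
        refine mul_le_mul h4 ?_ (mul_nonneg hQ0.le hQ0.le) hm0
        rw [hB]
        have : (0:ℝ) ≤ 3 * a + 3 :=
          add_nonneg (mul_nonneg (by norm_num) (Nat.cast_nonneg _)) (by norm_num)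
        linarith
      have e3 := mul_le_mul_of_nonneg_right e2 (mul_nonneg hL1 hL1)
      calc (μ:ℝ) ^ (lenF a c K + 3) * (Q * (1 + lg c K : ℝ) ^ b) * (Q * (1 + lg c K : ℝ) ^ b)
          = (μ:ℝ) ^ (lenF a c K + 3) * (Q * Q) *
            ((1 + lg c K : ℝ) ^ b * (1 + lg c K : ℝ) ^ b) := by ring
        _ ≤ m ^ (a * lg c K + (2 * a + 3)) * B *
            ((1 + lg c K : ℝ) ^ b * (1 + lg c K : ℝ) ^ b) := e3
        _ = _ := by ring
    exact mul_le_mul_of_nonneg_right (mul_le_mul_of_nonneg_right h8 (Nat.cast_nonneg _)) h7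
  · -- wn
    intro K hK
    have hK' : 1 ≤ K := hK1.trans hK
    have h1 := plog_le c b K (by omega) hK'
    have h2 := bw_real c K (gth c K)
    have hL0 : (1:ℝ) ≤ (1 + lg c K : ℝ) := le_add_of_nonneg_right (Nat.cast_nonneg _)
    have hL1 : (0:ℝ) ≤ (1 + lg c K : ℝ) ^ b := pow_nonneg (by linarith) b
    have h3 : (wnF b c K : ℝ) = (plog b K : ℝ) *
        ((1 + CC c ^ ep c K / (gth c K + 1) : ℕ) : ℝ) := by
      unfold wnF bwF
      rw [Nat.cast_mul]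
    have hg0 : (0:ℝ) < gth c K := by exact_mod_cast gth_pos c K
    have h4 : 1 + (Hb c K : ℝ) / ((gth c K : ℝ) + 1) ≤ 1 + (Hb c K : ℝ) / (gth c K : ℝ) := by
      have : (Hb c K : ℝ) / ((gth c K : ℝ) + 1) ≤ (Hb c K : ℝ) / (gth c K : ℝ) :=
        div_le_div_of_nonneg_left (Nat.cast_nonneg _) hg0 (by linarith)
      linarith
    have h5 : (1 + lg c K : ℝ) ^ b ≤ (1 + lg c K : ℝ) ^ (2 * b) :=
      pow_le_pow_right₀ hL0 (by omega)
    have h6 : Q * (1 + lg c K : ℝ) ^ b ≤ B * (1 + lg c K : ℝ) ^ (2 * b) :=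
      mul_le_mul hBQ h5 hL1 hB0.le
    have h7 : 0 ≤ B * (1 + lg c K : ℝ) ^ (2 * b) := mul_nonneg hB0.le (pow_nonneg (by linarith) _)
    rw [h3]
    exact mul_le_mul (h1.trans h6) (h2.trans h4) (Nat.cast_nonneg _) h7

end Pool.Agent.Helper82.ETN
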