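import Mathlib
import Pool.Agent.Helper82.ETN.Num3
import Pool.Agent.Helper29.ETK.Win

/-!
# E-T (MP_12a1af_nt), project T*: the bottom of the window
-/

open Finset Filter Topology

namespace Pool.Agent.Helper82.ETN

open Pool.Agent.ETP Pool.Agent.Helper29.ETK

/-- lower bound of the bottom of the window -/
lemma wb_ge {c K : ℕ} (hc : 10 ≤ c) (hK : 6 ≤ epo c K) : K ≤ wb c K + 3 * Hb c K := by
  have h1 := Pool.Agent.Helper29.ETK.lt_wb_add hc hK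
  have h2 : Hb c (wb c K) ≤ Hb c K := Hb_mono (Pool.Agent.Helper82.ETN.wb_le c K)
  omega

lemma epo_ev {c : ℕ} (hc : 1 ≤ c) (m : ℕ) : ∀ᶠ K : ℕ in atTop, m ≤ epo c K := by
  filter_upwards [eventually_ge_atTop (CC c ^ (3 * m + 1))] with K hK
  have h1 : 3 * m + 1 ≤ lg c K := Nat.le_log_of_pow_le (one_lt_CC hc) hK
  unfold epo
  omega

/-- the window, for large scales -/
lemma window_ev {c : ℕ} (hc : 10 ≤ c) :
    ∃ K2 : ℕ, ∀ K, K2 ≤ K → 7 * K ≤ 8 * wb c K ∧ wb c K ≤ K := by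
  obtain ⟨H0, hH1, hHb⟩ := exists_Hb_le c
  have hwin : ∀ᶠ K : ℕ in atTop, 24 * H0 ≤ (K:ℝ) ^ (2/3 : ℝ) :=
    ev_const_le_rpow _ _ (by norm_num)
  obtain ⟨K2, hK2⟩ := ((hwin.and (eventually_ge_atTop 1)).and
    (epo_ev (c := c) (by omega) 6)).exists_forall_of_atTop
  refine ⟨K2, fun K hK => ?_⟩
  have hK' : 1 ≤ K := (hK2 K hK).1.2
  have hKr : (1:ℝ) ≤ K := by exact_mod_cast hK'
  have hKp : (0:ℝ) < K := by linarith
  have e1 : (24 * Hb c K : ℝ) ≤ K := by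
    have e2 := hHb K hK'
    have e3 := (hK2 K hK).1.1
    have e4 : (K:ℝ) ^ (2/3 : ℝ) * (K:ℝ) ^ (1/3 : ℝ) = K := by
      rw [← Real.rpow_add hKp]
      norm_num
    calc (24 * Hb c K : ℝ) ≤ 24 * (H0 * (K:ℝ) ^ (1/3 : ℝ)) := by linarith
      _ = (24 * H0) * (K:ℝ) ^ (1/3 : ℝ) := by ring
      _ ≤ (K:ℝ) ^ (2/3 : ℝ) * (K:ℝ) ^ (1/3 : ℝ) :=
          mul_le_mul_of_nonneg_right e3 (Real.rpow_nonneg hKp.le _)
      _ = K := e4
  have e2 : 24 * Hb c K ≤ K := by exact_mod_cast e1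
  have e3 := wb_ge (c := c) (K := K) hc (hK2 K hK).2
  have e4 : wb c K ≤ K := Pool.Agent.Helper82.ETN.wb_le c K
  omega

end Pool.Agent.Helper82.ETN
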